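import Pool.Agent.W619.Y.Stm

/-! Determinants of matrices whose rows are permuted by an automorphism in the inertia group. -/

set_option autoImplicit false
set_option linter.overlappingInstances false
set_option linter.unusedSectionVars false

universe u v

open FF IntermediateField Pool.Agent.W619.PQ Pool.Agent.W619.PL Pool.Agent.W619.TW
  Pool.Agent.W603.LV

namespace Pool.Agent.W110.PG.DET

section alg

variable {L : Type u} [Field L] [CharZero L] {n : ℕ}

/-- The eigenprojection of `Q`. -/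
noncomputable def E (Z : L) (e : ℕ) (Q : Matrix (Fin n) (Fin n) L) (a : ℕ) :
    Matrix (Fin n) (Fin n) L :=
  (e : L)⁻¹ • ∑ r ∈ Finset.range e, (Z⁻¹) ^ (a * r) • Q ^ r

theorem E_transpose (Z : L) (e : ℕ) (Q : Matrix (Fin n) (Fin n) L) (a : ℕ) :
    (E Z e Q a).transpose = E Z e Q.transpose a := by
  unfold E
  rw [Matrix.transpose_smul, Matrix.transpose_sum]
  congr 1
  refine Finset.sum_congr rfl fun r _ => ?_
  rw [Matrix.transpose_smul, Matrix.transpose_pow]

theorem geom {Z : L} {e : ℕ} (hZ : IsPrimitiveRoot Z e) (m : ℤ) :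
    ∑ r ∈ Finset.range e, (Z ^ m) ^ r = if (e : ℤ) ∣ m then (e : L) else 0 := by
  split_ifs with h
  · have h1 : Z ^ m = 1 := (hZ.zpow_eq_one_iff_dvd m).2 h
    simp [h1]
  · have h1 : Z ^ m ≠ 1 := fun h2 => h ((hZ.zpow_eq_one_iff_dvd m).1 h2)
    have h2 : (Z ^ m) ^ e = 1 := by
      rw [← zpow_natCast, ← zpow_mul, hZ.zpow_eq_one_iff_dvd]
      exact Dvd.intro_left m rfl
    have h3 := mul_geom_sum (Z ^ m) e
    rw [h2, sub_self] at h3
    exact (mul_eq_zero.1 h3).resolve_left (sub_ne_zero.2 h1)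

theorem mul_E {Z : L} {e : ℕ} (hZ : IsPrimitiveRoot Z e) (he : 0 < e)
    {Q : Matrix (Fin n) (Fin n) L} (hQ : Q ^ e = 1) (a : ℕ) :
    Q * E Z e Q a = Z ^ a • E Z e Q a := by
  have hZ0 : Z ≠ 0 := hZ.ne_zero he.ne'
  unfold E
  rw [Matrix.mul_smul, smul_comm (Z ^ a)]
  congr 1
  rw [Matrix.mul_sum, Finset.smul_sum]
  obtain ⟨e', rfl⟩ : ∃ e', e = e' + 1 := ⟨e - 1, by omega⟩
  rw [Finset.sum_range_succ, Finset.sum_range_succ']
  congr 1
  · refine Finset.sum_congr rfl fun r _ => ?_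
    rw [Matrix.mul_smul, ← pow_succ', smul_smul]
    congr 1
    rw [mul_add, mul_one, pow_add, inv_pow Z a]
    field_simp
  · rw [Matrix.mul_smul, ← pow_succ', hQ, smul_smul]
    simp only [mul_zero, pow_zero, mul_one]
    congr 1
    have h1 : Z ^ (a * (e' + 1)) = 1 := by
      rw [mul_comm, pow_mul, hZ.pow_eq_one, one_pow]
    rw [inv_pow]
    rw [inv_eq_iff_eq_inv, ← one_div, eq_div_iff (pow_ne_zero _ hZ0), ← pow_add, ← h1]
    congr 1

theorem sum_E {Z : L} {e : ℕ} (hZ : IsPrimitiveRoot Z e) (he : 0 < e)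
    (Q : Matrix (Fin n) (Fin n) L) :
    ∑ a ∈ Finset.range e, E Z e Q a = 1 := by
  have he0 : (e : L) ≠ 0 := Nat.cast_ne_zero.2 he.ne'
  unfold E
  rw [← Finset.smul_sum, Finset.sum_comm]
  have h1 : ∀ r ∈ Finset.range e, ∑ a ∈ Finset.range e, (Z⁻¹) ^ (a * r) • Q ^ r =
      if r = 0 then (e : L) • (1 : Matrix (Fin n) (Fin n) L) else 0 := by
    intro r hr
    rw [← Finset.sum_smul]
    have h2 : ∑ a ∈ Finset.range e, (Z⁻¹) ^ (a * r) = if (e : ℤ) ∣ (-(r : ℤ)) then (e : L) else 0 := by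
      rw [← geom hZ]
      refine Finset.sum_congr rfl fun a _ => ?_
      rw [zpow_neg, zpow_natCast, ← inv_pow, ← pow_mul, mul_comm]
    rw [h2]
    by_cases hr0 : r = 0
    · subst hr0
      simp
    · rw [if_neg hr0, if_neg, zero_smul]
      rw [dvd_neg]
      intro h3
      have h4 : e ∣ r := by exact_mod_cast h3
      exact absurd (Nat.le_of_dvd (Nat.pos_of_ne_zero hr0) h4) (not_le.2 (Finset.mem_range.1 hr))
  rw [Finset.sum_congr rfl h1, Finset.sum_ite_eq' (Finset.range e) 0,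
    if_pos (Finset.mem_range.2 he), smul_smul, inv_mul_cancel₀ he0, one_smul]

theorem E_mul {Z : L} {e : ℕ} (hZ : IsPrimitiveRoot Z e) (he : 0 < e) {ι : Type*} [Fintype ι]
    (Q : Matrix (Fin n) (Fin n) L) (Y : Matrix (Fin n) ι L) (c : ℤ)
    (hY : Q * Y = Z ^ c • Y) (b : ℕ) :
    E Z e Q b * Y = if (e : ℤ) ∣ c - b then Y else 0 := by
  have hZ0 : Z ≠ 0 := hZ.ne_zero he.ne'
  have he0 : (e : L) ≠ 0 := Nat.cast_ne_zero.2 he.ne'
  have h1 : ∀ r : ℕ, Q ^ r * Y = (Z ^ c) ^ r • Y := by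
    intro r
    induction r with
    | zero => simp
    | succ r ih =>
      rw [pow_succ, Matrix.mul_assoc, hY, Matrix.mul_smul, ih, smul_smul, pow_succ, mul_comm]
  unfold E
  rw [Matrix.smul_mul, Matrix.sum_mul]
  have h2 : ∀ r ∈ Finset.range e, ((Z⁻¹) ^ (b * r) • Q ^ r) * Y = ((Z ^ (c - b)) ^ r) • Y := by
    intro r _
    rw [Matrix.smul_mul, h1, smul_smul]
    congr 1
    rw [zpow_sub₀ hZ0, zpow_natCast, div_pow, pow_mul, inv_pow, inv_pow]
    field_simp
  rw [Finset.sum_congr rfl h2, ← Finset.sum_smul, geom hZ, smul_smul]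
  split_ifs
  · rw [inv_mul_cancel₀ he0, one_smul]
  · simp

/-- The permutation matrix. -/
def Pm (τ : Equiv.Perm (Fin n)) : Matrix (Fin n) (Fin n) L :=
  Matrix.of fun i j => if τ i = j then 1 else 0

theorem Pm_mul (τ : Equiv.Perm (Fin n)) {ι : Type*} (Y : Matrix (Fin n) ι L) (i : Fin n)
    (j : ι) : ((Pm τ : Matrix (Fin n) (Fin n) L) * Y) i j = Y (τ i) j := by
  rw [Matrix.mul_apply]
  simp [Pm]

theorem Pm_pow (τ : Equiv.Perm (Fin n)) (r : ℕ) :
    (Pm τ : Matrix (Fin n) (Fin n) L) ^ r = Pm (τ ^ r) := by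
  induction r with
  | zero => ext i j; simp [Pm, Matrix.one_apply]
  | succ r ih =>
    rw [pow_succ', ih]
    ext i j
    rw [Pm_mul, pow_succ]
    rfl

theorem Pm_one : (Pm 1 : Matrix (Fin n) (Fin n) L) = 1 := by
  ext i j
  by_cases h : i = j <;> simp [Pm, Matrix.one_apply, h]

theorem Pm_mul_transpose (τ : Equiv.Perm (Fin n)) :
    (Pm τ : Matrix (Fin n) (Fin n) L) * (Pm τ).transpose = 1 := by
  ext i j
  rw [Pm_mul, Matrix.transpose_apply]
  simp [Pm, Matrix.one_apply, eq_comm]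

/-- The determinant of `E₀ + s (1 - E₀)`. -/
theorem det_E0 {Z : L} {e : ℕ} (hZ : IsPrimitiveRoot Z e) (he : 0 < e) (τ : Equiv.Perm (Fin n))
    (hτ : τ ^ e = 1) {s : L} (hs : s ≠ 0) :
    (E Z e (Pm τ) 0 + s • (1 - E Z e (Pm τ) 0)).det =
      s ^ n * (s⁻¹) ^ ({i : Fin n | ∀ r : ℕ, i ≤ (τ ^ r) i}.ncard) := by
  classical
  let O : Type := {i : Fin n // ∀ r : ℕ, i ≤ (τ ^ r) i}
  have hcard : {i : Fin n | ∀ r : ℕ, i ≤ (τ ^ r) i}.ncard = Fintype.card O := by
    rw [Set.ncard_eq_toFinset_card', Set.toFinset_card]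
    rfl
  have hrep : ∀ i : Fin n, ∃ c : O, ∃ r : ℕ, (τ ^ r) i = c := by
    intro i
    have hne : {c : Fin n | ∃ r : ℕ, (τ ^ r) i = c}.Nonempty := ⟨_, 0, rfl⟩
    obtain ⟨c, ⟨r, hr⟩, hc2⟩ := Set.exists_min_image {c : Fin n | ∃ r : ℕ, (τ ^ r) i = c} id
      (Set.toFinite _) hne
    refine ⟨⟨c, fun q => hc2 _ ⟨q + r, ?_⟩⟩, r, hr⟩
    rw [pow_add, Equiv.Perm.mul_apply, hr]
  choose rep hrep using hrep
  have huniq : ∀ (i : Fin n) (c c' : O), (∃ r : ℕ, (τ ^ r) i = c) → (∃ r : ℕ, (τ ^ r) i = c') →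
      (c : Fin n) ≤ c' := by
    rintro i c c' ⟨a, ha⟩ ⟨b, hb⟩
    have h1 : (τ ^ (b + (e - 1) * a)) (c : Fin n) = c' := by
      rw [← ha, ← Equiv.Perm.mul_apply, ← pow_add, ← hb]
      have h2 : b + (e - 1) * a + a = b + e * a := by
        obtain ⟨e', rfl⟩ : ∃ e', e = e' + 1 := ⟨e - 1, by omega⟩
        simp; ring
      rw [h2, pow_add, pow_mul, hτ, one_pow, mul_one]
    rw [← h1]
    exact c.2 _
  have hrepτ : ∀ i, rep (τ i) = rep i := by
    intro i
    have h1 : ∃ r : ℕ, (τ ^ r) i = rep (τ i) := by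
      obtain ⟨r, hr⟩ := hrep (τ i)
      exact ⟨r + 1, by rw [pow_succ, Equiv.Perm.mul_apply, hr]⟩
    exact Subtype.ext (le_antisymm (huniq i _ _ h1 (hrep i)) (huniq i _ _ (hrep i) h1))
  have hrepO : ∀ c : O, rep (c : Fin n) = c := by
    intro c
    have h1 : ∃ r : ℕ, (τ ^ r) (c : Fin n) = c := ⟨0, rfl⟩
    exact Subtype.ext (le_antisymm (huniq _ _ _ (hrep _) h1) (huniq _ _ _ h1 (hrep _)))
  let E0 : Matrix (Fin n) (Fin n) L := E Z e (Pm τ) 0
  have hPe : (Pm τ : Matrix (Fin n) (Fin n) L) ^ e = 1 := by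
    rw [Pm_pow, hτ, Pm_one]
  let B : Matrix (Fin n) O L := Matrix.of fun i c => if rep i = c then 1 else 0
  let S : Matrix O (Fin n) L := Matrix.of fun c i => if (c : Fin n) = i then 1 else 0
  have hSY : ∀ {ι : Type} (Y : Matrix (Fin n) ι L) (c : O) (j : ι), (S * Y) c j = Y c j := by
    intro ι Y c j
    rw [Matrix.mul_apply]
    simp [S]
  have hBY : ∀ {ι : Type} (Y : Matrix O ι L) (i : Fin n) (j : ι), (B * Y) i j = Y (rep i) j := by
    intro ι Y i j
    rw [Matrix.mul_apply]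
    simp only [B, Matrix.of_apply]
    rw [Finset.sum_eq_single (rep i)]
    · simp
    · intro b _ hb
      rw [if_neg (Ne.symm hb), zero_mul]
    · intro h
      exact absurd (Finset.mem_univ _) h
  have hE0τ : ∀ (i j : Fin n), E0 (τ i) j = E0 i j := by
    intro i j
    have h1 := mul_E hZ he hPe 0
    rw [pow_zero, one_smul] at h1
    have h2 := Pm_mul (L := L) τ E0 i j
    rw [← h2]
    exact congrFun (congrFun h1 i) j
  have hE0r : ∀ (r : ℕ) (i j : Fin n), E0 ((τ ^ r) i) j = E0 i j := by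
    intro r
    induction r with
    | zero => intro i j; rfl
    | succ r ih =>
      intro i j
      rw [pow_succ, Equiv.Perm.mul_apply, ih, hE0τ]
  have hBC : B * (S * E0) = E0 := by
    ext i j
    rw [hBY, hSY]
    obtain ⟨r, hr⟩ := hrep i
    rw [← hr, hE0r]
  have hCB : (S * E0) * B = 1 := by
    have h1 : (Pm τ : Matrix (Fin n) (Fin n) L) * B = Z ^ (0 : ℤ) • B := by
      rw [zpow_zero, one_smul]
      ext i c
      rw [Pm_mul]
      simp only [B, Matrix.of_apply, hrepτ]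
    have h2 : E0 * B = B := by
      have h3 := E_mul hZ he (Pm τ) B 0 h1 0
      rw [h3, if_pos (by simp)]
    rw [Matrix.mul_assoc, h2]
    ext c c'
    rw [hSY]
    simp only [B, Matrix.of_apply, hrepO, Matrix.one_apply]
  have h1 : E0 + s • (1 - E0) = s • (1 + (((1 - s) / s) • B) * (S * E0)) := by
    rw [Matrix.smul_mul, hBC, smul_add, smul_smul, mul_div_cancel₀ _ hs, smul_sub, sub_smul,
      one_smul]
    abel
  change (E0 + s • (1 - E0)).det = _
  rw [h1, Matrix.det_smul, Fintype.card_fin, Matrix.det_one_add_mul_comm, Matrix.mul_smul, hCB]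
  have h2 : (1 : Matrix O O L) + ((1 - s) / s) • 1 = s⁻¹ • 1 := by
    rw [show (1 : Matrix O O L) + ((1 - s) / s) • 1 = (1 : L) • 1 + ((1 - s) / s) • 1 by
      rw [one_smul], ← add_smul]
    congr 1
    field_simp
    ring
  rw [h2, Matrix.det_smul, Matrix.det_one, mul_one, hcard]

/-- The determinant of the scaling matrix. -/
theorem det_Phi {Z : L} {e : ℕ} (hZ : IsPrimitiveRoot Z e) (he : 0 < e) (τ : Equiv.Perm (Fin n))
    (hτ : τ ^ e = 1) {t : L} (ht : t ≠ 0) :
    (∑ a ∈ Finset.range e, t ^ a • E Z e (Pm τ) a).det ^ 2 =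
      (t ^ e) ^ n * ((t ^ e)⁻¹) ^ ({i : Fin n | ∀ r : ℕ, i ≤ (τ ^ r) i}.ncard) := by
  classical
  have hZ0 : Z ≠ 0 := hZ.ne_zero he.ne'
  have hPe : (Pm τ : Matrix (Fin n) (Fin n) L) ^ e = 1 := by
    rw [Pm_pow, hτ, Pm_one]
  have hPte : (Pm τ : Matrix (Fin n) (Fin n) L).transpose ^ e = 1 := by
    rw [← Matrix.transpose_pow, hPe, Matrix.transpose_one]
  let F : ℕ → Matrix (Fin n) (Fin n) L := fun a => (E Z e (Pm τ) a).transpose
  have hF : ∀ a, F a = E Z e (Pm τ).transpose a := fun a => E_transpose Z e (Pm τ) a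
  have hPF : ∀ a : ℕ, (Pm τ : Matrix (Fin n) (Fin n) L) * F a = Z ^ (-(a : ℤ)) • F a := by
    intro a
    have h1 := mul_E hZ he hPte a
    rw [← hF] at h1
    have h2 : (Pm τ : Matrix (Fin n) (Fin n) L) * ((Pm τ).transpose * F a) = F a := by
      rw [← Matrix.mul_assoc, Pm_mul_transpose, Matrix.one_mul]
    rw [h1, Matrix.mul_smul] at h2
    rw [zpow_neg, zpow_natCast]
    nth_rewrite 2 [← h2]
    rw [smul_smul, inv_mul_cancel₀ (pow_ne_zero _ hZ0), one_smul]
  have hsF : ∑ a ∈ Finset.range e, F a = 1 := by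
    simp only [hF]
    exact sum_E hZ he _
  have key : (∑ a ∈ Finset.range e, t ^ a • E Z e (Pm τ) a) *
      (∑ a ∈ Finset.range e, t ^ a • E Z e (Pm τ) a).transpose =
      F 0 + (t ^ e) • (1 - F 0) := by
    have h1 : (∑ a ∈ Finset.range e, t ^ a • E Z e (Pm τ) a).transpose =
        ∑ a ∈ Finset.range e, t ^ a • F a := by
      rw [Matrix.transpose_sum]
      refine Finset.sum_congr rfl fun a _ => ?_
      rw [Matrix.transpose_smul]
    rw [h1, Matrix.mul_sum]
    have h2 : ∀ a ∈ Finset.range e, (∑ b ∈ Finset.range e, t ^ b • E Z e (Pm τ) b) * (t ^ a • F a) =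
        if a = 0 then F 0 else t ^ e • F a := by
      intro a ha
      rw [Finset.mem_range] at ha
      rw [Matrix.sum_mul]
      have h3 : ∀ b ∈ Finset.range e, (t ^ b • E Z e (Pm τ) b) * (t ^ a • F a) =
          if b = (if a = 0 then 0 else e - a) then t ^ b • (t ^ a • F a) else 0 := by
        intro b hb
        rw [Finset.mem_range] at hb
        rw [Matrix.smul_mul, Matrix.mul_smul, E_mul hZ he _ _ _ (hPF a) b]
        have h4 : ((e : ℤ) ∣ -(a : ℤ) - b) ↔ b = (if a = 0 then 0 else e - a) := by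
          constructor
          · rintro ⟨q, hq⟩
            have hq1 : q ≤ 0 := by
              by_contra hcon
              push Not at hcon
              nlinarith
            have hq2 : -2 < q := by
              by_contra hcon
              push Not at hcon
              nlinarith
            have hq3 : q = 0 ∨ q = -1 := by omega
            rcases hq3 with rfl | rfl
            · have : a = 0 ∧ b = 0 := by omega
              simp [this.1, this.2]
            · split_ifs <;> omega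
          · intro h
            split_ifs at h with h5
            · subst h5; subst h; simp
            · refine ⟨-1, ?_⟩
              subst h
              push_cast [Nat.cast_sub ha.le]
              ring
        by_cases h5 : b = (if a = 0 then 0 else e - a)
        · rw [if_pos (h4.2 h5), if_pos h5]
        · rw [if_neg (fun h => h5 (h4.1 h)), if_neg h5, smul_zero, smul_zero]
      rw [Finset.sum_congr rfl h3, Finset.sum_ite_eq' (Finset.range e)]
      by_cases ha0 : a = 0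
      · subst ha0
        simp [he]
      · rw [if_neg ha0, if_neg ha0, if_pos (Finset.mem_range.2 (by omega)), smul_smul, ← pow_add]
        congr 2
        omega
    rw [Finset.sum_congr rfl h2]
    obtain ⟨e', rfl⟩ : ∃ e', e = e' + 1 := ⟨e - 1, by omega⟩
    rw [Finset.sum_range_succ'] at hsF ⊢
    rw [← hsF]
    simp only [Nat.add_eq_zero_iff, one_ne_zero, and_false, if_false, if_true, add_sub_cancel_right]
    rw [← Finset.smul_sum, add_comm]
  have h5 := congrArg Matrix.det key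
  rw [Matrix.det_mul, Matrix.det_transpose, ← sq] at h5
  rw [h5]
  have h6 : F 0 + (t ^ e) • (1 - F 0) =
      (E Z e (Pm τ) 0 + (t ^ e) • (1 - E Z e (Pm τ) 0)).transpose := by
    rw [Matrix.transpose_add, Matrix.transpose_smul, Matrix.transpose_sub, Matrix.transpose_one]
  rw [h6, Matrix.det_transpose]
  exact det_E0 hZ he τ hτ (pow_ne_zero _ ht)

end alg

theorem main : Pool.Agent.W619.Y.S_DET.{u, v} := by
  classical
  intro k L _ _ _ _ _ n e w h ζ τ M he hζ hord hτ hM hGe hdet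
  have : CharZero L := charZero_of_injective_algebraMap (algebraMap k L).injective
  have hZ : IsPrimitiveRoot (algebraMap k L ζ) e :=
    hζ.map_of_injective (algebraMap k L).injective
  set Z := algebraMap k L ζ with hZdef
  obtain ⟨π, hπ0, hπ⟩ := w.surj
  have hPe : (Pm τ : Matrix (Fin n) (Fin n) L) ^ e = 1 := by
    rw [Pm_pow, hτ, Pm_one]
  -- the entries of the projections are constants
  have hEc : ∀ (a : ℕ) (i j : Fin n), ∃ c : k, E Z e (Pm τ) a i j = algebraMap k L c := by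
    intro a i j
    refine ⟨(e : k)⁻¹ * ∑ r ∈ Finset.range e, (ζ⁻¹) ^ (a * r) *
      (if (τ ^ r) i = j then 1 else 0), ?_⟩
    unfold E
    rw [Matrix.smul_apply, Matrix.sum_apply, map_mul, map_sum, map_inv₀, map_natCast, smul_eq_mul]
    congr 1
    refine Finset.sum_congr rfl fun r _ => ?_
    rw [Matrix.smul_apply, Pm_pow, smul_eq_mul, map_mul, map_pow, map_inv₀]
    congr 1
    simp only [Pm, Matrix.of_apply]
    split_ifs <;> simp
  -- the entries of `E a * M`
  have hY0 : ∀ (a : ℕ) (i j : Fin n), Ge w 0 ((E Z e (Pm τ) a * M) i j) := by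
    intro a i j
    rw [Matrix.mul_apply]
    refine Ge.sum _ _ fun l _ => ?_
    obtain ⟨c, hc⟩ := hEc a i l
    rw [hc]
    simpa using (Ge.const (P := w) c).mul (hGe l j)
  have hYh : ∀ (a : ℕ) (i j : Fin n), h ((E Z e (Pm τ) a * M) i j) =
      algebraMap k L (ζ ^ a) * (E Z e (Pm τ) a * M) i j := by
    intro a i j
    have h1 : h ((E Z e (Pm τ) a * M) i j) =
        (E Z e (Pm τ) a * (Pm τ * M) : Matrix (Fin n) (Fin n) L) i j := by
      rw [Matrix.mul_apply, Matrix.mul_apply, map_sum]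
      refine Finset.sum_congr rfl fun l _ => ?_
      obtain ⟨c, hc⟩ := hEc a i l
      rw [map_mul, hc, AlgEquiv.commutes, hM, Pm_mul]
    have h2 : E Z e (Pm τ) a * Pm τ = Pm τ * E Z e (Pm τ) a := by
      unfold E
      rw [Matrix.smul_mul, Matrix.mul_smul, Matrix.sum_mul, Matrix.mul_sum]
      congr 1
      refine Finset.sum_congr rfl fun r _ => ?_
      rw [Matrix.smul_mul, Matrix.mul_smul, ← pow_succ, ← pow_succ']
    rw [h1, ← Matrix.mul_assoc, h2, mul_E hZ he hPe a, Matrix.smul_mul, Matrix.smul_apply,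
      smul_eq_mul, map_pow]
  have hYa : ∀ a : ℕ, a < e → ∀ i j : Fin n, Ge w a ((E Z e (Pm τ) a * M) i j) := by
    intro a ha i j
    by_cases hz : (E Z e (Pm τ) a * M) i j = 0
    · exact Or.inl hz
    right
    obtain ⟨q, hq⟩ := hord a _ hz (hYh a i j)
    have h0 := (hY0 a i j).resolve_left hz
    by_contra hcon
    push Not at hcon
    have hq1 : 0 ≤ q := by
      by_contra hcon2
      push Not at hcon2
      have h3 : (e : ℤ) * q ≤ (e : ℤ) * (-1) := mul_le_mul_of_nonneg_left (by omega) (by omega)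
      omega
    have : 0 ≤ (e : ℤ) * q := by positivity
    omega
  -- the scaling matrix
  let Φ : Matrix (Fin n) (Fin n) L := ∑ a ∈ Finset.range e, (π⁻¹) ^ a • E Z e (Pm τ) a
  have hΦ := det_Phi hZ he τ hτ (inv_ne_zero hπ0)
  have hΦM : ∀ i j, Ge w 0 ((Φ * M) i j) := by
    intro i j
    have h1 : (Φ * M) i j = ∑ a ∈ Finset.range e, (π⁻¹) ^ a * (E Z e (Pm τ) a * M) i j := by
      simp only [Φ]
      rw [Matrix.sum_mul, Matrix.sum_apply]
      refine Finset.sum_congr rfl fun a _ => ?_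
      rw [Matrix.smul_mul, Matrix.smul_apply, smul_eq_mul]
    rw [h1]
    refine Ge.sum _ _ fun a ha => ?_
    rw [Finset.mem_range] at ha
    have h2 : Ge w (-(a : ℤ)) ((π⁻¹) ^ a) := by
      right
      rw [w.ord_pow, w.ord_inv, hπ]
      simp
    simpa using h2.mul (hYa a ha i j)
  have h3 := ge_det w (Φ * M) hΦM
  rw [Matrix.det_mul] at h3
  change Φ.det ^ 2 = _ at hΦ
  have hp0 : (π⁻¹) ^ e ≠ 0 := pow_ne_zero _ (inv_ne_zero hπ0)
  have hΦ0 : Φ.det ≠ 0 := by
    intro h0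
    rw [h0] at hΦ
    have : (0 : L) ≠ (0 : L) ^ 2 := by
      rw [hΦ]
      exact (mul_ne_zero (pow_ne_zero _ hp0) (pow_ne_zero _ (inv_ne_zero hp0))).symm
    simp at this
  have h4 : w.ord (Φ.det ^ 2) = 2 * w.ord Φ.det := by
    rw [w.ord_pow]; norm_num
  have h5 : w.ord ((((π⁻¹) ^ e) ^ n * (((π⁻¹) ^ e)⁻¹) ^
      ({i : Fin n | ∀ r : ℕ, i ≤ (τ ^ r) i}.ncard) : L)) =
      -((e : ℤ) * (n - ({i : Fin n | ∀ r : ℕ, i ≤ (τ ^ r) i}.ncard : ℤ))) := by
    have hpe : w.ord ((π⁻¹) ^ e) = -(e : ℤ) := by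
      rw [w.ord_pow, w.ord_inv, hπ]
      ring
    rw [w.ord_mul (pow_ne_zero _ hp0) (pow_ne_zero _ (inv_ne_zero hp0)),
      w.ord_pow ((π⁻¹) ^ e) n, w.ord_pow (((π⁻¹) ^ e)⁻¹), w.ord_inv, hpe]
    ring
  rw [← hΦ, h4] at h5
  have h6 := h3.resolve_left (mul_ne_zero hΦ0 hdet)
  rw [w.ord_mul hΦ0 hdet] at h6
  linarith

end Pool.Agent.W110.PG.DET
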